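import Mathlib

/-!
# A counterexample to the completely bounded abstract Crouzeix conjecture

The operator algebra `A` consists of the operators on `ℂ² ⊗ ℂ² = ℂ⁴` with block matrix
`[[c + P E, Q E], [r + R E, c + S E]]`, where `E = [[1, 24/7], [0, 0]]` is a non-selfadjoint
idempotent.  With `K = 201/100`, the homomorphism is
`θ = [[c + P, Q / K], [K (r + R), c + S]]` and the antilinear map is
`α = [[c̄, - δ r̄ E], [- Q̄ / K², c̄]]`, `δ = 603/2500`.  Complete contractivity of `α` and of `θ_α`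
is proved by exhibiting explicit (weighted, rational) Kraus decompositions, and
`‖θ ([[0, 0], [1, 0]])‖ = 201/100 > 2`.
-/

open scoped ENNReal ComplexConjugate Matrix

namespace Pool.Agent.Results.MP_042718_an.CbCrouzeixCounterexample

/-! ### Definitions used in the statement -/

/-- The operator norm of a complex matrix acting on the Euclidean space `ℂ^ι`. -/
noncomputable def opNorm {ι : Type} [Fintype ι] [DecidableEq ι] (X : Matrix ι ι ℂ) : ℝ :=
  ‖Matrix.toEuclideanCLM (n := ι) (𝕜 := ℂ) X‖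

/-- The norm of an `m × m` matrix `[a i j]` with entries in `M_N(ℂ) = B(ℂ^N)`, as an operator on
`ℂ^N ⊕ ⋯ ⊕ ℂ^N` (`m` copies): the operator norm of the associated block matrix. -/
noncomputable def ampNorm {m N : ℕ} (a : Fin m → Fin m → Matrix (Fin N) (Fin N) ℂ) : ℝ :=
  opNorm (Matrix.of fun (p q : Fin m × Fin N) => a p.1 q.1 p.2 q.2)

/-- The completely bounded norm `sup_m ‖φ^(m)‖`, as an element of `[0, ∞]`, of a map `φ` from the
operator algebra `A ⊆ M_N(ℂ) = B(ℂ^N)` into `M_n(ℂ)`: the supremum, over all `m` and all `m × m`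
matrices `[a i j]` over `A` of norm at most one, of the norm of `[φ (a i j)]`. -/
noncomputable def cbNorm {N n : ℕ} (A : Subalgebra ℂ (Matrix (Fin N) (Fin N) ℂ))
    (φ : A → Matrix (Fin n) (Fin n) ℂ) : ℝ≥0∞ :=
  ⨆ (m : ℕ) (a : Fin m → Fin m → A) (_ : ampNorm (fun i j => (a i j).1) ≤ 1),
    ENNReal.ofReal (ampNorm fun i j => φ (a i j))

/-- The map `θ_α f = (θ f + (θ (α f))ᴴ) / 2`. -/
noncomputable def thetaAlpha {N n : ℕ} {A : Subalgebra ℂ (Matrix (Fin N) (Fin N) ℂ)}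
    (θ : A →ₐ[ℂ] Matrix (Fin n) (Fin n) ℂ) (α : A →ₛₗ[starRingEnd ℂ] A) (f : A) :
    Matrix (Fin n) (Fin n) ℂ :=
  (1 / 2 : ℂ) • (θ f + (θ (α f))ᴴ)

/-- The hypotheses of the question on a unital homomorphism `θ : A → M_n(ℂ)` and an antilinear map
`α : A → A`: `θ` is completely bounded, `α` is a unital complete contraction, and `θ_α` has
completely bounded norm at most one. -/
structure IsAdmissible {N n : ℕ} (A : Subalgebra ℂ (Matrix (Fin N) (Fin N) ℂ))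
    (θ : A →ₐ[ℂ] Matrix (Fin n) (Fin n) ℂ) (α : A →ₛₗ[starRingEnd ℂ] A) : Prop where
  theta_cb : cbNorm A (fun f => θ f) < ⊤
  alpha_one : α 1 = 1
  alpha_cc : cbNorm A (fun f => (α f).1) ≤ 1
  thetaAlpha_cc : cbNorm A (thetaAlpha θ α) ≤ 1

/-- Complete contractivity of an antilinear map `α : A → A` in the other convention, where the
matrix `[a i j]` is sent to `[α (a j i)]`. -/
def IsTransposedCC {N : ℕ} (A : Subalgebra ℂ (Matrix (Fin N) (Fin N) ℂ))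
    (α : A →ₛₗ[starRingEnd ℂ] A) : Prop :=
  ∀ (m : ℕ) (a : Fin m → Fin m → A),
    ampNorm (fun i j => (α (a j i)).1) ≤ ampNorm (fun i j => (a i j).1)

/-! ### Kraus bounds for operator matrices -/

section general

variable {H K : Type*} [NormedAddCommGroup H] [InnerProductSpace ℂ H]
  [NormedAddCommGroup K] [InnerProductSpace ℂ K]

/-- The operator on the Hilbert direct sum `H ⊕ ⋯ ⊕ H` (`m` copies) with matrix `[a i j]`:
its `i`-th component at `x` is `∑ j, a i j (x j)`. -/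
noncomputable def opMatrix {m : ℕ} (a : Fin m → Fin m → (H →L[ℂ] H)) :
    PiLp 2 (fun _ : Fin m => H) →L[ℂ] PiLp 2 (fun _ : Fin m => H) :=
  (PiLp.continuousLinearEquiv 2 ℂ (fun _ : Fin m => H)).symm.toContinuousLinearMap ∘L
    ContinuousLinearMap.pi (fun i => ∑ j, (a i j) ∘L (PiLp.proj 2 (fun _ : Fin m => H) j))

lemma opMatrix_apply {m : ℕ} (a : Fin m → Fin m → (H →L[ℂ] H))
    (x : PiLp 2 (fun _ : Fin m => H)) (i : Fin m) :
    opMatrix a x i = ∑ j, a i j (x j) := by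
  simp [opMatrix]

lemma inner_opMatrix {m : ℕ} (a : Fin m → Fin m → (H →L[ℂ] H))
    (x y : PiLp 2 (fun _ : Fin m => H)) :
    inner ℂ y (opMatrix a x) = ∑ i, ∑ j, inner ℂ (y i) (a i j (x j)) := by
  rw [PiLp.inner_apply]
  refine Finset.sum_congr rfl fun i _ => ?_
  rw [opMatrix_apply, inner_sum]

/-- Two-sided weighted Kraus bound, for a matrix `b` of operators obtained from `a`. The map `σ` is
either the identity or complex conjugation. -/
lemma kraus_bound {ι : Type*} [Fintype ι] (V W : ι → K → H) (w : ι → ℝ) (hw : ∀ k, 0 ≤ w k)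
    (C D : ℝ) (hC : 0 ≤ C) (hD : 0 ≤ D)
    (hV : ∀ x, ∑ k, w k * ‖V k x‖ ^ 2 ≤ C ^ 2 * ‖x‖ ^ 2)
    (hW : ∀ x, ∑ k, w k * ‖W k x‖ ^ 2 ≤ D ^ 2 * ‖x‖ ^ 2)
    (σ : ℂ →+ ℂ) (hσ : ∀ z, ‖σ z‖ = ‖z‖)
    {m : ℕ} (a : Fin m → Fin m → (H →L[ℂ] H)) (b : Fin m → Fin m → (K →L[ℂ] K))
    (h : ∀ i j x y, inner ℂ y (b i j x) = ∑ k, (w k : ℂ) * σ (inner ℂ (W k y) (a i j (V k x)))) :
    ‖opMatrix b‖ ≤ C * D * ‖opMatrix a‖ := by
  refine ContinuousLinearMap.opNorm_le_bound _ (by positivity) fun X => ?_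
  set Y := opMatrix b X with hY
  -- lifted vectors
  set VX : ι → PiLp 2 (fun _ : Fin m => H) := fun k => WithLp.toLp 2 (fun j => V k (X j)) with hVX
  set WY : ι → PiLp 2 (fun _ : Fin m => H) := fun k => WithLp.toLp 2 (fun j => W k (Y j)) with hWY
  have key : inner ℂ Y (opMatrix b X) =
      ∑ k, (w k : ℂ) * σ (inner ℂ (WY k) (opMatrix a (VX k))) := by
    rw [inner_opMatrix]
    simp_rw [h, inner_opMatrix, map_sum, Finset.mul_sum]
    rw [Finset.sum_congr rfl (fun i _ => Finset.sum_comm), Finset.sum_comm]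
  have nV : ∑ k, w k * ‖VX k‖ ^ 2 ≤ C ^ 2 * ‖X‖ ^ 2 := by
    have : ∀ k, ‖VX k‖ ^ 2 = ∑ j, ‖V k (X j)‖ ^ 2 := by
      intro k
      rw [PiLp.norm_sq_eq_of_L2]
    simp_rw [this, Finset.mul_sum]
    rw [Finset.sum_comm, PiLp.norm_sq_eq_of_L2, Finset.mul_sum]
    exact Finset.sum_le_sum fun j _ => hV (X j)
  have nW : ∑ k, w k * ‖WY k‖ ^ 2 ≤ D ^ 2 * ‖Y‖ ^ 2 := by
    have : ∀ k, ‖WY k‖ ^ 2 = ∑ j, ‖W k (Y j)‖ ^ 2 := by
      intro k
      rw [PiLp.norm_sq_eq_of_L2]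
    simp_rw [this, Finset.mul_sum]
    rw [Finset.sum_comm, PiLp.norm_sq_eq_of_L2, Finset.mul_sum]
    exact Finset.sum_le_sum fun j _ => hW (Y j)
  have bound : ‖Y‖ ^ 2 ≤ ‖opMatrix a‖ * ∑ k, w k * (‖VX k‖ * ‖WY k‖) := by
    have e1 : ‖Y‖ ^ 2 = ‖(inner ℂ Y (opMatrix b X) : ℂ)‖ := by
      rw [← hY, inner_self_eq_norm_sq_to_K]
      simp
    rw [e1, key]
    refine (norm_sum_le _ _).trans ?_
    rw [Finset.mul_sum]
    refine Finset.sum_le_sum fun k _ => ?_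
    rw [norm_mul, hσ, Complex.norm_real, Real.norm_of_nonneg (hw k)]
    have h1 : ‖(inner ℂ (WY k) (opMatrix a (VX k)) : ℂ)‖ ≤ ‖WY k‖ * (‖opMatrix a‖ * ‖VX k‖) :=
      (norm_inner_le_norm _ _).trans
        (mul_le_mul_of_nonneg_left ((opMatrix a).le_opNorm _) (norm_nonneg _))
    calc w k * ‖(inner ℂ (WY k) (opMatrix a (VX k)) : ℂ)‖
        ≤ w k * (‖WY k‖ * (‖opMatrix a‖ * ‖VX k‖)) := mul_le_mul_of_nonneg_left h1 (hw k)
      _ = ‖opMatrix a‖ * (w k * (‖VX k‖ * ‖WY k‖)) := by ring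
  have cs : ∑ k, w k * (‖VX k‖ * ‖WY k‖) ≤ (C * ‖X‖) * (D * ‖Y‖) := by
    have h1 : (∑ k, (√(w k) * ‖VX k‖) * (√(w k) * ‖WY k‖)) ^ 2 ≤
        (∑ k, (√(w k) * ‖VX k‖) ^ 2) * ∑ k, (√(w k) * ‖WY k‖) ^ 2 :=
      Finset.sum_mul_sq_le_sq_mul_sq _ _ _
    have e0 : ∀ k, (√(w k) * ‖VX k‖) * (√(w k) * ‖WY k‖) = w k * (‖VX k‖ * ‖WY k‖) := by
      intro k
      have := Real.mul_self_sqrt (hw k)
      calc (√(w k) * ‖VX k‖) * (√(w k) * ‖WY k‖)
          = (√(w k) * √(w k)) * (‖VX k‖ * ‖WY k‖) := by ring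
        _ = _ := by rw [this]
    have e1 : ∀ k, (√(w k) * ‖VX k‖) ^ 2 = w k * ‖VX k‖ ^ 2 := by
      intro k; rw [mul_pow, Real.sq_sqrt (hw k)]
    have e2 : ∀ k, (√(w k) * ‖WY k‖) ^ 2 = w k * ‖WY k‖ ^ 2 := by
      intro k; rw [mul_pow, Real.sq_sqrt (hw k)]
    simp_rw [e0, e1, e2] at h1
    have h2 : (∑ k, w k * (‖VX k‖ * ‖WY k‖)) ^ 2 ≤ ((C * ‖X‖) * (D * ‖Y‖)) ^ 2 := by
      refine h1.trans ?_
      calc (∑ k, w k * ‖VX k‖ ^ 2) * ∑ k, w k * ‖WY k‖ ^ 2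
          ≤ (C ^ 2 * ‖X‖ ^ 2) * (D ^ 2 * ‖Y‖ ^ 2) := by
            refine mul_le_mul nV nW ?_ (by positivity)
            exact Finset.sum_nonneg fun k _ => mul_nonneg (hw k) (by positivity)
        _ = _ := by ring
    exact (abs_le_of_sq_le_sq' h2 (by positivity)).2
  have fin : ‖Y‖ ^ 2 ≤ (C * D * ‖opMatrix a‖ * ‖X‖) * ‖Y‖ := by
    calc ‖Y‖ ^ 2 ≤ ‖opMatrix a‖ * ∑ k, w k * (‖VX k‖ * ‖WY k‖) := bound
      _ ≤ ‖opMatrix a‖ * ((C * ‖X‖) * (D * ‖Y‖)) :=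
          mul_le_mul_of_nonneg_left cs (ContinuousLinearMap.opNorm_nonneg _)
      _ = _ := by ring
  rcases eq_or_lt_of_le (norm_nonneg Y) with h0 | h0
  · rw [← h0]; positivity
  · rw [sq] at fin
    exact le_of_mul_le_mul_right fin h0

/-- the twisted version, for `b i j` obtained from `a j i` through an antilinear map -/
lemma kraus_bound_twisted {ι : Type*} [Fintype ι] (V : ι → K → H) (w : ι → ℝ) (hw : ∀ k, 0 ≤ w k)
    (hV : ∀ x, ∑ k, w k * ‖V k x‖ ^ 2 ≤ ‖x‖ ^ 2)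
    {m : ℕ} (a : Fin m → Fin m → (H →L[ℂ] H)) (b : Fin m → Fin m → (K →L[ℂ] K))
    (h : ∀ i j x y, inner ℂ y (b i j x) =
      ∑ k, (w k : ℂ) * conj (inner ℂ (V k x) (a j i (V k y)))) :
    ‖opMatrix b‖ ≤ ‖opMatrix a‖ := by
  refine ContinuousLinearMap.opNorm_le_bound _ (by positivity) fun X => ?_
  set Y := opMatrix b X with hY
  set VX : ι → PiLp 2 (fun _ : Fin m => H) := fun k => WithLp.toLp 2 (fun j => V k (X j)) with hVX
  set VY : ι → PiLp 2 (fun _ : Fin m => H) := fun k => WithLp.toLp 2 (fun j => V k (Y j)) with hVY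
  have key : inner ℂ Y (opMatrix b X) =
      ∑ k, (w k : ℂ) * conj (inner ℂ (VX k) (opMatrix a (VY k))) := by
    rw [inner_opMatrix]
    simp_rw [h, inner_opMatrix, map_sum, Finset.mul_sum]
    rw [Finset.sum_comm, Finset.sum_congr rfl (fun i _ => Finset.sum_comm), Finset.sum_comm]
  have nrm : ∀ Z : PiLp 2 (fun _ : Fin m => K),
      ∑ k, w k * ‖(WithLp.toLp 2 (fun j => V k (Z j)) : PiLp 2 (fun _ : Fin m => H))‖ ^ 2
        ≤ ‖Z‖ ^ 2 := by
    intro Z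
    have : ∀ k, ‖(WithLp.toLp 2 (fun j => V k (Z j)) : PiLp 2 (fun _ : Fin m => H))‖ ^ 2
        = ∑ j, ‖V k (Z j)‖ ^ 2 := by
      intro k
      rw [PiLp.norm_sq_eq_of_L2]
    simp_rw [this, Finset.mul_sum]
    rw [Finset.sum_comm, PiLp.norm_sq_eq_of_L2]
    exact Finset.sum_le_sum fun j _ => hV (Z j)
  have nV := nrm X
  have nW := nrm Y
  have bound : ‖Y‖ ^ 2 ≤ ‖opMatrix a‖ * ∑ k, w k * (‖VX k‖ * ‖VY k‖) := by
    have e1 : ‖Y‖ ^ 2 = ‖(inner ℂ Y (opMatrix b X) : ℂ)‖ := by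
      rw [← hY, inner_self_eq_norm_sq_to_K]
      simp
    rw [e1, key]
    refine (norm_sum_le _ _).trans ?_
    rw [Finset.mul_sum]
    refine Finset.sum_le_sum fun k _ => ?_
    rw [norm_mul, RCLike.norm_conj, Complex.norm_real, Real.norm_of_nonneg (hw k)]
    have h1 : ‖(inner ℂ (VX k) (opMatrix a (VY k)) : ℂ)‖ ≤ ‖VX k‖ * (‖opMatrix a‖ * ‖VY k‖) :=
      (norm_inner_le_norm _ _).trans
        (mul_le_mul_of_nonneg_left ((opMatrix a).le_opNorm _) (norm_nonneg _))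
    calc w k * ‖(inner ℂ (VX k) (opMatrix a (VY k)) : ℂ)‖
        ≤ w k * (‖VX k‖ * (‖opMatrix a‖ * ‖VY k‖)) := mul_le_mul_of_nonneg_left h1 (hw k)
      _ = ‖opMatrix a‖ * (w k * (‖VX k‖ * ‖VY k‖)) := by ring
  have cs : ∑ k, w k * (‖VX k‖ * ‖VY k‖) ≤ ‖X‖ * ‖Y‖ := by
    have h1 : (∑ k, (√(w k) * ‖VX k‖) * (√(w k) * ‖VY k‖)) ^ 2 ≤
        (∑ k, (√(w k) * ‖VX k‖) ^ 2) * ∑ k, (√(w k) * ‖VY k‖) ^ 2 :=
      Finset.sum_mul_sq_le_sq_mul_sq _ _ _
    have e0 : ∀ k, (√(w k) * ‖VX k‖) * (√(w k) * ‖VY k‖) = w k * (‖VX k‖ * ‖VY k‖) := by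
      intro k
      have := Real.mul_self_sqrt (hw k)
      calc (√(w k) * ‖VX k‖) * (√(w k) * ‖VY k‖)
          = (√(w k) * √(w k)) * (‖VX k‖ * ‖VY k‖) := by ring
        _ = _ := by rw [this]
    have e1 : ∀ k, (√(w k) * ‖VX k‖) ^ 2 = w k * ‖VX k‖ ^ 2 := by
      intro k; rw [mul_pow, Real.sq_sqrt (hw k)]
    have e2 : ∀ k, (√(w k) * ‖VY k‖) ^ 2 = w k * ‖VY k‖ ^ 2 := by
      intro k; rw [mul_pow, Real.sq_sqrt (hw k)]
    simp_rw [e0, e1, e2] at h1
    have h2 : (∑ k, w k * (‖VX k‖ * ‖VY k‖)) ^ 2 ≤ (‖X‖ * ‖Y‖) ^ 2 := by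
      refine h1.trans ?_
      calc (∑ k, w k * ‖VX k‖ ^ 2) * ∑ k, w k * ‖VY k‖ ^ 2
          ≤ ‖X‖ ^ 2 * ‖Y‖ ^ 2 := by
            refine mul_le_mul nV nW ?_ (by positivity)
            exact Finset.sum_nonneg fun k _ => mul_nonneg (hw k) (by positivity)
        _ = _ := by ring
    exact (abs_le_of_sq_le_sq' h2 (by positivity)).2
  have fin : ‖Y‖ ^ 2 ≤ (‖opMatrix a‖ * ‖X‖) * ‖Y‖ := by
    calc ‖Y‖ ^ 2 ≤ ‖opMatrix a‖ * ∑ k, w k * (‖VX k‖ * ‖VY k‖) := bound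
      _ ≤ ‖opMatrix a‖ * (‖X‖ * ‖Y‖) :=
          mul_le_mul_of_nonneg_left cs (ContinuousLinearMap.opNorm_nonneg _)
      _ = _ := by ring
  rcases eq_or_lt_of_le (norm_nonneg Y) with h0 | h0
  · rw [← h0]; positivity
  · rw [sq] at fin
    exact le_of_mul_le_mul_right fin h0

end general

/-! ### The algebra -/

abbrev C4 := EuclideanSpace ℂ (Fin 4)
abbrev C2 := EuclideanSpace ℂ (Fin 2)

/-- general element of the algebra -/
noncomputable def el (c p q r r' s : ℂ) : Matrix (Fin 4) (Fin 4) ℂ :=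
  !![c + 7 * p, 24 * p, 7 * q, 24 * q;
     0, c, 0, 0;
     r + 7 * r', 24 * r', c + 7 * s, 24 * s;
     0, r, 0, c]

lemma el_mul (c p q r r' s c' p' q' r₁ r₁' s' : ℂ) :
    el c p q r r' s * el c' p' q' r₁ r₁' s' =
      el (c * c') (c * p' + p * c' + 7 * p * p' + q * (r₁ + 7 * r₁'))
        (c * q' + 7 * p * q' + q * c' + 7 * q * s')
        (r * c' + c * r₁)
        (r * p' + r' * c' + 7 * r' * p' + c * r₁' + s * (r₁ + 7 * r₁'))
        ((r + 7 * r') * q' + c * s' + s * c' + 7 * s * s') := by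
  ext i j
  fin_cases i <;> fin_cases j <;>
    simp [el, Matrix.mul_apply, Fin.sum_univ_four] <;> ring

lemma el_add (c p q r r' s c' p' q' r₁ r₁' s' : ℂ) :
    el c p q r r' s + el c' p' q' r₁ r₁' s' =
      el (c + c') (p + p') (q + q') (r + r₁) (r' + r₁') (s + s') := by
  ext i j
  fin_cases i <;> fin_cases j <;>
    simp [el] <;> ring

lemma el_algebraMap (z : ℂ) :
    algebraMap ℂ (Matrix (Fin 4) (Fin 4) ℂ) z = el z 0 0 0 0 0 := by
  ext i j
  fin_cases i <;> fin_cases j <;>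
    simp [el, Matrix.algebraMap_matrix_apply]

/-- matrices as operators -/
noncomputable abbrev op4 : Matrix (Fin 4) (Fin 4) ℂ ≃⋆ₐ[ℂ] (C4 →L[ℂ] C4) :=
  Matrix.toEuclideanCLM (n := Fin 4) (𝕜 := ℂ)

noncomputable abbrev op2 : Matrix (Fin 2) (Fin 2) ℂ ≃⋆ₐ[ℂ] (C2 →L[ℂ] C2) :=
  Matrix.toEuclideanCLM (n := Fin 2) (𝕜 := ℂ)

/-- the matrix algebra -/
noncomputable def A0 : Subalgebra ℂ (Matrix (Fin 4) (Fin 4) ℂ) where
  carrier := {M | ∃ c p q r r' s, M = el c p q r r' s}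
  mul_mem' := by
    rintro _ _ ⟨c, p, q, r, r', s, rfl⟩ ⟨c', p', q', r₁, r₁', s', rfl⟩
    exact ⟨_, _, _, _, _, _, el_mul _ _ _ _ _ _ _ _ _ _ _ _⟩
  add_mem' := by
    rintro _ _ ⟨c, p, q, r, r', s, rfl⟩ ⟨c', p', q', r₁, r₁', s', rfl⟩
    exact ⟨_, _, _, _, _, _, el_add _ _ _ _ _ _ _ _ _ _ _ _⟩
  algebraMap_mem' z := ⟨_, _, _, _, _, _, el_algebraMap z⟩

/-- matrix form of the homomorphism -/
noncomputable def th0 (M : Matrix (Fin 4) (Fin 4) ℂ) : Matrix (Fin 2) (Fin 2) ℂ :=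
  !![M 0 0, 100 / 201 * M 0 2; 201 / 100 * M 2 0, M 2 2]

/-- the homomorphism `θ` -/
noncomputable def theta : A0 →ₐ[ℂ] Matrix (Fin 2) (Fin 2) ℂ where
  toFun T := th0 T.1
  map_one' := by
    ext i j
    fin_cases i <;> fin_cases j <;> simp [th0]
  map_zero' := by
    ext i j
    fin_cases i <;> fin_cases j <;> simp [th0]
  map_mul' S T := by
    obtain ⟨S, c, p, q, r, r', s, rfl⟩ := S
    obtain ⟨T, c', p', q', r₁, r₁', s', rfl⟩ := T
    ext i j
    fin_cases i <;> fin_cases j <;>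
      simp [th0, el, Matrix.mul_apply, Fin.sum_univ_four] <;> ring
  map_add' S T := by
    ext i j
    fin_cases i <;> fin_cases j <;> simp [th0] <;> ring
  commutes' z := by
    ext i j
    fin_cases i <;> fin_cases j <;> simp [th0, Matrix.algebraMap_matrix_apply]

/-- matrix form of the antilinear map -/
noncomputable def al0 (M : Matrix (Fin 4) (Fin 4) ℂ) : Matrix (Fin 4) (Fin 4) ℂ :=
  el (conj (M 1 1)) 0 (-(603 / 17500) * conj (M 3 1)) (-(10000 / 40401) * conj (M 0 2)) 0 0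

/-- the antilinear map `α` -/
noncomputable def alpha : A0 →ₛₗ[starRingEnd ℂ] A0 where
  toFun T := ⟨al0 T.1, _, _, _, _, _, _, rfl⟩
  map_add' S T := by
    apply Subtype.ext
    change al0 (S.1 + T.1) = al0 S.1 + al0 T.1
    simp only [al0, el_add]
    congr 1 <;> simp <;> ring
  map_smul' z T := by
    apply Subtype.ext
    change al0 (z • T.1) = (starRingEnd ℂ z) • al0 T.1
    ext i j
    fin_cases i <;> fin_cases j <;> simp [al0, el] <;> ring

lemma alpha_one : alpha 1 = 1 := by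
  apply Subtype.ext
  change al0 1 = 1
  ext i j
  fin_cases i <;> fin_cases j <;> simp [al0, el]

/-! ### inner product formulas -/

lemma inner_op4 (M : Matrix (Fin 4) (Fin 4) ℂ) (x y : C4) :
    inner ℂ y (op4 M x) = ∑ i, ∑ j, conj (y i) * M i j * x j := by
  rw [PiLp.inner_apply]
  refine Finset.sum_congr rfl fun i _ => ?_
  rw [Matrix.ofLp_toEuclideanCLM, Matrix.mulVec, dotProduct]
  rw [RCLike.inner_apply, Finset.sum_mul]
  refine Finset.sum_congr rfl fun j _ => ?_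
  ring

lemma inner_op2 (M : Matrix (Fin 2) (Fin 2) ℂ) (x y : C2) :
    inner ℂ y (op2 M x) = ∑ i, ∑ j, conj (y i) * M i j * x j := by
  rw [PiLp.inner_apply]
  refine Finset.sum_congr rfl fun i _ => ?_
  rw [Matrix.ofLp_toEuclideanCLM, Matrix.mulVec, dotProduct]
  rw [RCLike.inner_apply, Finset.sum_mul]
  refine Finset.sum_congr rfl fun j _ => ?_
  ring

/-! ### the averaged map -/

/-- weights -/
noncomputable def wP : Fin 4 → ℝ := ![41 / 100, 163 / 4100, 286499 / 4172800, 103921 / 14324950]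
noncomputable def aP : Fin 4 → ℝ := ![1, 0, 0, 0]
noncomputable def cP : Fin 4 → ℝ := ![42 / 41, 1, 0, 0]
noncomputable def bP : Fin 4 → ℝ := ![21 / 328, 9429 / 2608, 1, 0]
noncomputable def dP : Fin 4 → ℝ := ![-49 / 164, 4403 / 1304, 198282 / 286499, 1]

noncomputable def VP (k : Fin 4) (x : C2) : C4 :=
  !₂[(aP k : ℂ) * x 0, (bP k : ℂ) * x 0, (cP k : ℂ) * x 1, (dP k : ℂ) * x 1]

lemma wP_nonneg : ∀ k, 0 ≤ wP k := by
  intro k
  fin_cases k <;> simp [wP] <;> norm_num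

lemma VP_norm (x : C2) : ∑ k, wP k * ‖VP k x‖ ^ 2 ≤ (1 : ℝ) ^ 2 * ‖x‖ ^ 2 := by
  have h : ∀ k, ‖VP k x‖ ^ 2 = (aP k ^ 2 + bP k ^ 2) * ‖x 0‖ ^ 2 + (cP k ^ 2 + dP k ^ 2) * ‖x 1‖ ^ 2 := by
    intro k
    rw [EuclideanSpace.norm_sq_eq, Fin.sum_univ_four]
    simp [VP, mul_pow]
    ring
  simp_rw [h]
  rw [EuclideanSpace.norm_sq_eq, Fin.sum_univ_two, Fin.sum_univ_four]
  simp [wP, aP, bP, cP, dP]
  apply le_of_eq
  ring

/-- matrix of `θ_α` -/
noncomputable def phi0 (M : Matrix (Fin 4) (Fin 4) ℂ) : Matrix (Fin 2) (Fin 2) ℂ :=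
  (1 / 2 : ℂ) • (th0 M + (th0 (al0 M))ᴴ)

lemma VP_inner (c p q r r' s : ℂ) (x y : C2) :
    inner ℂ y (op2 (phi0 (el c p q r r' s)) x) =
      ∑ k, (wP k : ℂ) * inner ℂ (VP k y) (op4 (el c p q r r' s) (VP k x)) := by
  rw [inner_op2]
  simp_rw [inner_op4, Fin.sum_univ_four, Fin.sum_univ_two]
  simp [phi0, th0, al0, el, VP, wP, aP, bP, cP, dP, Matrix.conjTranspose_apply, map_ofNat]
  ring


/-! ### the antilinear map -/

noncomputable def wA : Fin 5 ⊕ Fin 4 → ℝ :=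
  Sum.elim ![603 / 700, 10770073 / 254526300, 328609 / 363609, 10770073 / 254526300,
      328609 / 363609]
    ![109375 / 1454436, 30625 / 1454436, 109375 / 1454436, 30625 / 1454436]

/-- conjugate-linear Kraus maps for `α` -/
noncomputable def VA : Fin 5 ⊕ Fin 4 → C4 → C4 :=
  Sum.elim
    ![fun x => !₂[0, (7 * conj (x 2) + 24 * conj (x 3)) / 25, 0, -conj (x 0)],
      fun x => !₂[0, conj (x 0), 0, 0],
      fun x => !₂[0, conj (x 1), 0, 0],
      fun x => !₂[0, (7 * conj (x 2) + 24 * conj (x 3)) / 25, 0, 0],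
      fun x => !₂[0, (24 * conj (x 2) - 7 * conj (x 3)) / 25, 0, 0]]
    ![fun x => !₂[-24 / 25 * conj (x 2), 7 / 25 * conj (x 2), 0, conj (x 0)],
      fun x => !₂[0, -conj (x 2), 0, conj (x 0)],
      fun x => !₂[-24 / 25 * conj (x 3), 7 / 25 * conj (x 3), 0, conj (x 1)],
      fun x => !₂[0, -conj (x 3), 0, conj (x 1)]]

/-- linear Kraus maps for the adjoint of `α` -/
noncomputable def VB : Fin 5 ⊕ Fin 4 → C4 → C4 :=
  Sum.elim
    ![fun x => !₂[0, x 0, 0, -((7 * x 2 + 24 * x 3) / 25)],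
      fun x => !₂[0, x 0, 0, 0],
      fun x => !₂[0, x 1, 0, 0],
      fun x => !₂[0, (7 * x 2 + 24 * x 3) / 25, 0, 0],
      fun x => !₂[0, (24 * x 2 - 7 * x 3) / 25, 0, 0]]
    ![fun x => !₂[-24 / 25 * x 0, 7 / 25 * x 0, 0, x 2],
      fun x => !₂[0, -x 0, 0, x 2],
      fun x => !₂[-24 / 25 * x 1, 7 / 25 * x 1, 0, x 3],
      fun x => !₂[0, -x 1, 0, x 3]]

lemma wA_nonneg : ∀ k, 0 ≤ wA k := by
  rintro (k | k)
  · fin_cases k <;> simp [wA] <;> norm_num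
  · fin_cases k <;> simp [wA] <;> norm_num

lemma VA_norm (x : C4) : ∑ k, wA k * ‖VA k x‖ ^ 2 ≤ (1 : ℝ) ^ 2 * ‖x‖ ^ 2 := by
  simp only [Fintype.sum_sum_type, Fin.sum_univ_five, Fin.sum_univ_four]
  simp only [EuclideanSpace.norm_sq_eq, Fin.sum_univ_four]
  simp [wA, VA]
  simp only [div_pow, mul_pow, Complex.sq_norm, Complex.normSq_apply]
  simp
  apply le_of_eq
  ring

lemma VB_norm (x : C4) : ∑ k, wA k * ‖VB k x‖ ^ 2 ≤ ‖x‖ ^ 2 := by
  simp only [Fintype.sum_sum_type, Fin.sum_univ_five, Fin.sum_univ_four]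
  simp only [EuclideanSpace.norm_sq_eq, Fin.sum_univ_four]
  simp [wA, VB]
  simp only [div_pow, mul_pow, Complex.sq_norm, Complex.normSq_apply]
  simp
  apply le_of_eq
  ring

lemma VA_inner (c p q r r' s : ℂ) (x y : C4) :
    inner ℂ y (op4 (al0 (el c p q r r' s)) x) =
      ∑ k, (wA k : ℂ) * conj (inner ℂ (VA k y) (op4 (el c p q r r' s) (VA k x))) := by
  simp_rw [inner_op4, Fintype.sum_sum_type, Fin.sum_univ_five, Fin.sum_univ_four]
  simp [al0, el, VA, wA, map_ofNat]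
  ring

lemma VB_inner (c p q r r' s : ℂ) (x y : C4) :
    inner ℂ y (op4 (al0 (el c p q r r' s)) x) =
      ∑ k, (wA k : ℂ) * conj (inner ℂ (VB k x) (op4 (el c p q r r' s) (VB k y))) := by
  simp_rw [inner_op4, Fintype.sum_sum_type, Fin.sum_univ_five, Fin.sum_univ_four]
  simp [al0, el, VB, wA, map_ofNat]
  ring


/-! ### Transfer to the statement -/

lemma ampNorm_eq {m N : ℕ} (a : Fin m → Fin m → Matrix (Fin N) (Fin N) ℂ) :
    ampNorm a = ‖opMatrix (fun i j => Matrix.toEuclideanCLM (n := Fin N) (𝕜 := ℂ) (a i j))‖ := by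
  set b : Fin m → Fin m → (EuclideanSpace ℂ (Fin N) →L[ℂ] EuclideanSpace ℂ (Fin N)) :=
    fun i j => Matrix.toEuclideanCLM (n := Fin N) (𝕜 := ℂ) (a i j) with hb
  set B := Matrix.toEuclideanCLM (n := Fin m × Fin N) (𝕜 := ℂ)
    (Matrix.of fun (p q : Fin m × Fin N) => a p.1 q.1 p.2 q.2) with hB
  -- curry
  let cur : EuclideanSpace ℂ (Fin m × Fin N) → PiLp 2 (fun _ : Fin m => EuclideanSpace ℂ (Fin N)) :=
    fun x => WithLp.toLp 2 (fun i => WithLp.toLp 2 (fun k => x (i, k)))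
  have ncur : ∀ x, ‖cur x‖ = ‖x‖ := by
    intro x
    rw [PiLp.norm_eq_of_L2, EuclideanSpace.norm_eq]
    congr 1
    rw [Fintype.sum_prod_type]
    refine Finset.sum_congr rfl fun i _ => ?_
    rw [EuclideanSpace.norm_sq_eq]
  have hcur : ∀ x, cur (B x) = opMatrix b (cur x) := by
    intro x
    ext i k
    rw [opMatrix_apply]
    change (B x) (i, k) = _
    rw [hB, Matrix.ofLp_toEuclideanCLM, Matrix.mulVec, dotProduct, Fintype.sum_prod_type]
    rw [WithLp.ofLp_sum, Finset.sum_apply]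
    refine Finset.sum_congr rfl fun j _ => ?_
    rw [hb, Matrix.ofLp_toEuclideanCLM, Matrix.mulVec, dotProduct]
    rfl
  have hsurj : ∀ X : PiLp 2 (fun _ : Fin m => EuclideanSpace ℂ (Fin N)), ∃ x, cur x = X := by
    intro X
    refine ⟨WithLp.toLp 2 (fun p => X p.1 p.2), ?_⟩
    ext i k
    rfl
  change ‖B‖ = ‖opMatrix b‖
  apply le_antisymm
  · refine ContinuousLinearMap.opNorm_le_bound _ (ContinuousLinearMap.opNorm_nonneg _) fun x => ?_
    rw [← ncur (B x), hcur, ← ncur x]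
    exact (opMatrix b).le_opNorm _
  · refine ContinuousLinearMap.opNorm_le_bound _ (ContinuousLinearMap.opNorm_nonneg _) fun X => ?_
    obtain ⟨x, rfl⟩ := hsurj X
    rw [← hcur, ncur, ncur]
    exact B.le_opNorm _

lemma cbNorm_le {N n : ℕ} (A : Subalgebra ℂ (Matrix (Fin N) (Fin N) ℂ))
    (φ : A → Matrix (Fin n) (Fin n) ℂ) (C : ℝ) (hC : 0 ≤ C)
    (h : ∀ (m : ℕ) (a : Fin m → Fin m → A), ampNorm (fun i j => φ (a i j)) ≤
      C * ampNorm (fun i j => (a i j).1)) :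
    cbNorm A φ ≤ ENNReal.ofReal C := by
  refine iSup_le fun m => iSup_le fun a => iSup_le fun ha => ?_
  refine ENNReal.ofReal_le_ofReal ((h m a).trans ?_)
  calc C * ampNorm (fun i j => (a i j).1) ≤ C * 1 := mul_le_mul_of_nonneg_left ha hC
    _ = C := mul_one C

lemma ampNorm_one {N : ℕ} (T : Matrix (Fin N) (Fin N) ℂ) :
    ampNorm (fun _ _ : Fin 1 => T) = opNorm T := by
  rw [ampNorm_eq]
  unfold opNorm
  apply le_antisymm
  · refine ContinuousLinearMap.opNorm_le_bound _ (norm_nonneg _) fun X => ?_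
    rw [PiLp.norm_eq_of_L2, PiLp.norm_eq_of_L2, Fin.sum_univ_one, Fin.sum_univ_one,
      Real.sqrt_sq (norm_nonneg _), Real.sqrt_sq (norm_nonneg _), opMatrix_apply, Fin.sum_univ_one]
    exact ContinuousLinearMap.le_opNorm _ _
  · refine ContinuousLinearMap.opNorm_le_bound _ (ContinuousLinearMap.opNorm_nonneg _) fun v => ?_
    have h := (opMatrix (fun _ _ : Fin 1 => Matrix.toEuclideanCLM (n := Fin N) (𝕜 := ℂ) T)).le_opNorm
      (WithLp.toLp 2 (fun _ => v))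
    rw [PiLp.norm_eq_of_L2, PiLp.norm_eq_of_L2, Fin.sum_univ_one, Fin.sum_univ_one,
      Real.sqrt_sq (norm_nonneg _), Real.sqrt_sq (norm_nonneg _), opMatrix_apply,
      Fin.sum_univ_one] at h
    exact h

lemma le_cbNorm_one {N n : ℕ} (A : Subalgebra ℂ (Matrix (Fin N) (Fin N) ℂ))
    (φ : A → Matrix (Fin n) (Fin n) ℂ) (f : A) (hf : opNorm f.1 ≤ 1) :
    ENNReal.ofReal (opNorm (φ f)) ≤ cbNorm A φ := by
  rw [← ampNorm_one]
  unfold cbNorm
  exact le_iSup_of_le 1 (le_iSup_of_le (fun _ _ => f)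
    (le_iSup_of_le (by rw [ampNorm_one]; exact hf) le_rfl))

lemma cb_phi : cbNorm A0 (thetaAlpha theta alpha) ≤ 1 := by
  rw [← ENNReal.ofReal_one]
  refine cbNorm_le A0 _ 1 zero_le_one fun m a => ?_
  rw [ampNorm_eq, ampNorm_eq]
  have := kraus_bound VP VP wP wP_nonneg 1 1 zero_le_one zero_le_one VP_norm VP_norm
    (AddMonoidHom.id ℂ) (fun z => rfl) (fun i j => op4 (a i j).1)
    (fun i j => op2 (thetaAlpha theta alpha (a i j))) ?_
  · simpa using this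
  · intro i j x y
    obtain ⟨c, p, q, r, r', s, h⟩ := (a i j).2
    change inner ℂ y (op2 (phi0 (a i j).1) x) = _
    rw [h, VP_inner]
    rfl

lemma cb_alpha : cbNorm A0 (fun f => (alpha f).1) ≤ 1 := by
  rw [← ENNReal.ofReal_one]
  refine cbNorm_le A0 _ 1 zero_le_one fun m a => ?_
  rw [ampNorm_eq, ampNorm_eq]
  have := kraus_bound VA VA wA wA_nonneg 1 1 zero_le_one zero_le_one VA_norm VA_norm
    (starRingEnd ℂ : ℂ →+* ℂ).toAddMonoidHom (fun z => RCLike.norm_conj z)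
    (fun i j => op4 (a i j).1) (fun i j => op4 (alpha (a i j)).1) ?_
  · simpa using this
  · intro i j x y
    obtain ⟨c, p, q, r, r', s, h⟩ := (a i j).2
    change inner ℂ y (op4 (al0 (a i j).1) x) = ∑ k, (wA k : ℂ) *
      conj (inner ℂ (VA k y) (op4 (a i j).1 (VA k x)))
    rw [h, VA_inner]

lemma cb_alpha_twisted : IsTransposedCC A0 alpha := by
  intro m a
  rw [ampNorm_eq, ampNorm_eq]
  refine kraus_bound_twisted VB wA wA_nonneg VB_norm (fun i j => op4 (a i j).1)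
    (fun i j => op4 (alpha (a j i)).1) ?_
  intro i j x y
  obtain ⟨c, p, q, r, r', s, h⟩ := (a j i).2
  change inner ℂ y (op4 (al0 (a j i).1) x) = ∑ k, (wA k : ℂ) *
      conj (inner ℂ (VB k x) (op4 (a j i).1 (VB k y)))
  rw [h, VB_inner]

/-- the two maps for the bound on `θ` -/
noncomputable def VT (_ : Fin 1) (x : C2) : C4 := !₂[201 / 100 * x 0, 0, x 1, 0]
noncomputable def WT (_ : Fin 1) (y : C2) : C4 := !₂[100 / 201 * y 0, 0, y 1, 0]

lemma cb_theta : cbNorm A0 (fun f => theta f) < ⊤ := by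
  have : cbNorm A0 (fun f => theta f) ≤ ENNReal.ofReal 9 := by
    refine cbNorm_le A0 _ 9 (by norm_num) fun m a => ?_
    rw [ampNorm_eq, ampNorm_eq]
    have := kraus_bound VT WT (fun _ => 1) (fun _ => zero_le_one) 3 3 (by norm_num) (by norm_num)
      ?_ ?_ (AddMonoidHom.id ℂ) (fun z => rfl) (fun i j => op4 (a i j).1)
      (fun i j => op2 (theta (a i j))) ?_
    · norm_num at this
      exact this
    · intro x
      rw [Fin.sum_univ_one, EuclideanSpace.norm_sq_eq, EuclideanSpace.norm_sq_eq,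
        Fin.sum_univ_four, Fin.sum_univ_two]
      simp [VT, mul_pow]
      nlinarith [sq_nonneg ‖x 0‖, sq_nonneg ‖x 1‖]
    · intro x
      rw [Fin.sum_univ_one, EuclideanSpace.norm_sq_eq, EuclideanSpace.norm_sq_eq,
        Fin.sum_univ_four, Fin.sum_univ_two]
      simp [WT, mul_pow]
      nlinarith [sq_nonneg ‖x 0‖, sq_nonneg ‖x 1‖]
    · intro i j x y
      obtain ⟨c, p, q, r, r', s, h⟩ := (a i j).2
      change inner ℂ y (op2 (th0 (a i j).1) x) = _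
      rw [Fin.sum_univ_one, h]
      simp_rw [AddMonoidHom.id_apply, inner_op4, inner_op2, Fin.sum_univ_four, Fin.sum_univ_two]
      simp [th0, el, VT, WT, map_ofNat]
      ring
  exact this.trans_lt ENNReal.ofReal_lt_top

lemma exists_norm_gt : ∃ f : A0, opNorm f.1 ≤ 1 ∧ 2 < opNorm (theta f) := by
  refine ⟨⟨el 0 0 0 1 0 0, _, _, _, _, _, _, rfl⟩, ?_, ?_⟩
  · refine ContinuousLinearMap.opNorm_le_bound _ zero_le_one fun x => ?_
    rw [one_mul, EuclideanSpace.norm_eq, EuclideanSpace.norm_eq]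
    refine Real.sqrt_le_sqrt ?_
    change ∑ i, ‖(op4 (el 0 0 0 1 0 0) x) i‖ ^ 2 ≤ _
    simp only [Fin.sum_univ_four, Matrix.ofLp_toEuclideanCLM, Matrix.mulVec, dotProduct]
    simp [el]
    nlinarith [sq_nonneg ‖x 2‖, sq_nonneg ‖x 3‖]
  · have e : ‖op2 (th0 (el 0 0 0 1 0 0)) (EuclideanSpace.single 0 1)‖ = 201 / 100 := by
      rw [EuclideanSpace.norm_eq]
      simp only [Fin.sum_univ_two, Matrix.ofLp_toEuclideanCLM, Matrix.mulVec, dotProduct]
      simp [el, th0]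
      rw [Real.sqrt_sq (by norm_num)]
    have h := (op2 (th0 (el 0 0 0 1 0 0))).le_opNorm (EuclideanSpace.single 0 1)
    rw [e] at h
    have h1 : ‖(EuclideanSpace.single 0 1 : C2)‖ = 1 := by simp
    rw [h1, mul_one] at h
    exact lt_of_lt_of_le (by norm_num) h

lemma two_lt_cb_theta : 2 < cbNorm A0 (fun f => theta f) := by
  obtain ⟨f, hf, hf2⟩ := exists_norm_gt
  refine lt_of_lt_of_le ?_ (le_cbNorm_one A0 (fun f => theta f) f hf)
  rw [show (2 : ℝ≥0∞) = ENNReal.ofReal 2 by simp]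
  rw [ENNReal.ofReal_lt_ofReal_iff (by linarith)]
  exact hf2

/-- There are a unital operator algebra `A ⊆ M₄(ℂ) = B(ℂ⁴)`, a unital completely bounded
homomorphism `θ : A → M₂(ℂ)` and a unital antilinear complete contraction `α : A → A` (in the
convention `α^(m) [a i j] = [α (a i j)]`, and also in the convention `[a i j] ↦ [α (a j i)]`) for
which `θ_α f = (θ f + (θ (α f))ᴴ) / 2` has completely bounded norm at most one, while
`‖θ‖_cb > 2`; indeed already `‖θ f‖ > 2` for some `f` in the unit ball of `A`. -/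
theorem result :
    ∃ (A : Subalgebra ℂ (Matrix (Fin 4) (Fin 4) ℂ)) (θ : A →ₐ[ℂ] Matrix (Fin 2) (Fin 2) ℂ)
      (α : A →ₛₗ[starRingEnd ℂ] A),
      IsAdmissible A θ α ∧ IsTransposedCC A α ∧ 2 < cbNorm A (fun f => θ f) ∧
      ∃ f : A, opNorm f.1 ≤ 1 ∧ 2 < opNorm (θ f) :=
  ⟨A0, theta, alpha, ⟨cb_theta, alpha_one, cb_alpha, cb_phi⟩, cb_alpha_twisted, two_lt_cb_theta,
    exists_norm_gt⟩

end Pool.Agent.Results.MP_042718_an.CbCrouzeixCounterexample
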